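import Pool.Agent.Lib.MP_fa4fe0_co.Main

namespace Pool.Agent.Lib.MP_fa4fe0_co

open Finset

/-- Weight put on the new entry. -/
noncomputable def xx (S : ℕ) : ℝ := 2 / (32 - (S : ℝ))

/-- Weights of the tight types. -/
noncomputable def w (j0 j1 j2 : Fin 9) (t : Fin 15) : ℝ :=
  (k0 t : ℝ) / 96 - xx (f 0 j0 + f 1 j1 + f 2 j2) / 32 * (corr j0 j1 j2 t : ℝ)

theorem w_nonneg (j0 j1 j2 : Fin 9) (hS : f 0 j0 + f 1 j1 + f 2 j2 < 32) (t : Fin 15) :
    0 ≤ w j0 j1 j2 t := by
  have h := nonneg_table j0 j1 j2 t hS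
  have h' : (6 : ℝ) * (corr j0 j1 j2 t : ℝ) ≤
      (k0 t : ℝ) * (32 - ((f 0 j0 + f 1 j1 + f 2 j2 : ℕ) : ℝ)) := by
    have := (Int.cast_le (R := ℝ)).2 h
    push_cast at this ⊢
    unfold corr
    push_cast
    linarith
  have hpos : (0 : ℝ) < 32 - ((f 0 j0 + f 1 j1 + f 2 j2 : ℕ) : ℝ) := by
    have : ((f 0 j0 + f 1 j1 + f 2 j2 : ℕ) : ℝ) < 32 := by exact_mod_cast hS
    linarith
  unfold w xx
  have key : (k0 t : ℝ) / 96 - 2 / (32 - ((f 0 j0 + f 1 j1 + f 2 j2 : ℕ) : ℝ)) / 32 *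
      (corr j0 j1 j2 t : ℝ) = ((k0 t : ℝ) * (32 - ((f 0 j0 + f 1 j1 + f 2 j2 : ℕ) : ℝ)) -
        6 * (corr j0 j1 j2 t : ℝ)) / (96 * (32 - ((f 0 j0 + f 1 j1 + f 2 j2 : ℕ) : ℝ))) := by
    field_simp
    ring
  rw [key]
  apply div_nonneg
  · linarith
  · positivity

theorem xx_pos (S : ℕ) (hS : S < 32) : 0 < xx S := by
  have : (S : ℝ) < 32 := by exact_mod_cast hS
  unfold xx
  apply div_pos (by norm_num) (by linarith)

theorem xx_le_one (S : ℕ) (hS : S ≤ 30) : xx S ≤ 1 := by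
  have : (S : ℝ) ≤ 30 := by exact_mod_cast hS
  unfold xx
  rw [div_le_one (by linarith)]
  linarith

theorem xx_mul (S : ℕ) (hS : S < 32) : xx S * (32 - (S : ℝ)) = 2 := by
  have : (S : ℝ) < 32 := by exact_mod_cast hS
  unfold xx
  rw [div_mul_cancel₀]
  intro h
  linarith

theorem w_marg (j0 j1 j2 : Fin 9) (hS : f 0 j0 + f 1 j1 + f 2 j2 < 32) (k : ℕ) (b : Fin 9)
    (h0 : k = 0 → b = j0) (h1 : k = 1 → b = j1) (h2 : k = 2 → b = j2) (j : Fin 9) :
    ∑ t, (if tv t k = f k j then w j0 j1 j2 t else 0) =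
      ∑ j', (if f k j' = f k j then
        (1 - if j' = b then xx (f 0 j0 + f 1 j1 + f 2 j2) else 0) else 0) := by
  set S := f 0 j0 + f 1 j1 + f 2 j2 with hSdef
  have hx := xx_mul S hS
  have e1 : ∑ t, (if tv t k = f k j then w j0 j1 j2 t else 0) =
      (1 / 96) * (((∑ t, (if tv t k = f k j then k0 t else 0) : ℤ)) : ℝ) -
        xx S / 32 * (((∑ t, (if tv t k = f k j then corr j0 j1 j2 t else 0) : ℤ)) : ℝ) := by
    push_cast
    rw [Finset.mul_sum, Finset.mul_sum, ← Finset.sum_sub_distrib]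
    apply Finset.sum_congr rfl
    intro t _
    by_cases ht : tv t k = f k j
    · simp only [ht, if_true]
      unfold w
      ring
    · simp [ht]
  have e2 : ∑ j', (if f k j' = f k j then (1 - if j' = b then xx S else 0) else 0) =
      (∑ j', (if f k j' = f k j then (1 : ℝ) else 0)) - (if f k b = f k j then xx S else 0) := by
    have : ∀ j' : Fin 9, (if f k j' = f k j then (1 - if j' = b then xx S else 0) else 0) =
        (if f k j' = f k j then (1 : ℝ) else 0) -
          (if j' = b then (if f k b = f k j then xx S else 0) else 0) := by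
      intro j'
      by_cases hj : j' = b
      · subst hj
        by_cases hf : f k j' = f k j <;> simp [hf]
      · by_cases hf : f k j' = f k j <;> simp [hf, hj]
    rw [Finset.sum_congr rfl (fun j' _ => this j'), Finset.sum_sub_distrib]
    simp
  rw [e1, e2, k0_marg' k j, c_marg' j0 j1 j2 k b h0 h1 h2 j]
  push_cast
  by_cases hz : f k j = 0
  · simp only [hz, if_true]
    by_cases hb : f k b = 0
    · simp only [hb, if_true]
      have hS' : ((f 0 j0 : ℝ) + (f 1 j1 : ℝ) + (f 2 j2 : ℝ)) = (S : ℝ) := by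
        rw [hSdef]; push_cast; ring
      rw [hS']
      linear_combination (1 / 32) * hx
    · have hb' : ¬ (0 = f k b) := fun h => hb h.symm
      simp only [hb, hb', if_false]
      have hS' : ((f 0 j0 : ℝ) + (f 1 j1 : ℝ) + (f 2 j2 : ℝ)) = (S : ℝ) := by
        rw [hSdef]; push_cast; ring
      rw [hS']
      linear_combination (1 / 32) * hx
  · simp only [hz, if_false]
    by_cases hb : f k b = f k j
    · simp only [hb, if_true]
      ring
    · have hb' : ¬ (f k j = f k b) := fun h => hb h.symm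
      simp only [hb, hb', if_false]
      ring

end Pool.Agent.Lib.MP_fa4fe0_co
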