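import Mathlib

/-!
Definitions for multidimensional (0,1)-matrices, polyplexes and hyperplane covers.

A `d`-dimensional (0,1)-matrix of order `n` is given by the set `A` of the indices
`α : Fin d → Fin n` of its unit entries.  The hyperplane `Γ_{i,j}` is the set of indices `α`
with `α i = j`.
-/

namespace Pool.Agent.Lib.MP_fa4fe0_co

open Finset

variable {d n : ℕ}

/-- The weight of a real array. -/
def weight (K : (Fin d → Fin n) → ℝ) : ℝ := ∑ α, K α

/-- `K` is a polyplex of the (0,1)-matrix with set of unit entries `A`. -/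
structure IsPolyplex (A : Set (Fin d → Fin n)) (K : (Fin d → Fin n) → ℝ) : Prop where
  nonneg : ∀ α, 0 ≤ K α
  supp : ∀ α, α ∉ A → K α = 0
  hyper : ∀ (i : Fin d) (j : Fin n), ∑ α with α i = j, K α ≤ 1

/-- A polydiagonal is a polyplex of weight `n`. -/
def IsPolydiagonal (A : Set (Fin d → Fin n)) (K : (Fin d → Fin n) → ℝ) : Prop :=
  IsPolyplex A K ∧ weight K = n

/-- An optimal polyplex is a polyplex of maximum weight. -/
def IsOptimalPolyplex (A : Set (Fin d → Fin n)) (K : (Fin d → Fin n) → ℝ) : Prop :=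
  IsPolyplex A K ∧ ∀ K', IsPolyplex A K' → weight K' ≤ weight K

/-- `A` is extremal: it has no polydiagonal, but changing any zero entry to one gives a matrix
that has one. -/
def IsExtremal (A : Set (Fin d → Fin n)) : Prop :=
  (¬ ∃ K, IsPolydiagonal A K) ∧ ∀ β, β ∉ A → ∃ K, IsPolydiagonal (insert β A) K

/-- `δ` is the deficiency of `A`: `n` minus the weight of an optimal polyplex. -/
def IsDeficiency (A : Set (Fin d → Fin n)) (δ : ℝ) : Prop :=
  ∃ K, IsOptimalPolyplex A K ∧ δ = n - weight K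

/-- `Λ` is a hyperplane cover of `A`. -/
structure IsCover (A : Set (Fin d → Fin n)) (Λ : Fin d → Fin n → ℝ) : Prop where
  nonneg : ∀ i j, 0 ≤ Λ i j
  cover : ∀ α ∈ A, 1 ≤ ∑ i, Λ i (α i)

/-- The weight of a hyperplane cover. -/
def coverWeight (Λ : Fin d → Fin n → ℝ) : ℝ := ∑ i, ∑ j, Λ i j

/-- A hyperplane cover of minimum weight. -/
def IsOptimalCover (A : Set (Fin d → Fin n)) (Λ : Fin d → Fin n → ℝ) : Prop :=
  IsCover A Λ ∧ ∀ Λ', IsCover A Λ' → coverWeight Λ ≤ coverWeight Λ'

end Pool.Agent.Lib.MP_fa4fe0_co
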