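import Pool.Agent.Lib.MP_fa4fe0_co.Build

namespace Pool.Agent.Lib.MP_fa4fe0_co

open Finset

theorem exists_diag {e : ℕ} (β : Fin (e + 3) → Fin 9) (hβ : val β < 32) :
    ∃ K : (Fin (e + 3) → Fin 9) → ℝ, (∀ α, 0 ≤ K α) ∧
      (∀ α, val α < 32 → α ≠ β → K α = 0) ∧
      (∀ (i : Fin (e + 3)) (j : Fin 9), ∑ α with α i = j, K α = 1) ∧ K β = xx (val β) := by
  classical
  have hβ30 : val β ≤ 30 := f_le _ _ _ hβ
  set x := xx (val β) with hx
  have hx0 : 0 < x := xx_pos _ hβ
  have hx1 : x ≤ 1 := xx_le_one _ hβ30
  set W : Fin 15 → ℝ := w (β 0) (β 1) (β 2) with hW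
  have hW0 : ∀ t, 0 ≤ W t := fun t => w_nonneg _ _ _ hβ t
  set r : Fin (e + 3) → Fin 9 → ℝ := fun i j => 1 - if j = β i then x else 0 with hr
  have hr0 : ∀ i j, 0 ≤ r i j := by
    intro i j
    simp only [hr]
    split_ifs <;> linarith
  set R : Fin (e + 3) → ℕ → ℝ := fun i v => ∑ j, if f i j = v then r i j else 0 with hR
  have hR0 : ∀ i v, 0 ≤ R i v := by
    intro i v
    apply Finset.sum_nonneg
    intro j _
    split_ifs
    · exact hr0 i j
    · exact le_rfl
  have hmarg : ∀ (i : Fin (e + 3)) (j : Fin 9),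
      ∑ t, (if tv t i = f i j then W t else 0) = R i (f i j) := by
    intro i j
    exact w_marg (β 0) (β 1) (β 2) hβ i (β i)
      (fun h => by
        have : i = 0 := Fin.ext h
        rw [this])
      (fun h => by
        have : i = 1 := Fin.ext h
        rw [this])
      (fun h => by
        have : i = 2 := Fin.ext h
        rw [this]) j
  set p : Fin (e + 3) → ℕ → Fin 9 → ℝ := fun i v j => if f i j = v then r i j / R i v else 0
    with hp
  have hp0 : ∀ i v j, 0 ≤ p i v j := by
    intro i v j
    simp only [hp]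
    split_ifs
    · exact div_nonneg (hr0 i j) (hR0 i v)
    · exact le_rfl
  have hpsum : ∀ i v, R i v ≠ 0 → ∑ j, p i v j = 1 := by
    intro i v hne
    have : ∀ j, p i v j = (if f i j = v then r i j else 0) / R i v := by
      intro j
      simp only [hp]
      split_ifs
      · rfl
      · simp
    rw [Finset.sum_congr rfl (fun j _ => this j), ← Finset.sum_div]
    exact div_self hne
  have hRne : ∀ t, W t ≠ 0 → ∀ i : Fin (e + 3), R i (tv t i) ≠ 0 := by
    intro t ht i
    obtain ⟨j, hj⟩ := tv_mem t i
    rw [← hj, ← hmarg i j]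
    have h1 : W t ≤ ∑ t', (if tv t' i = f i j then W t' else 0) := by
      have := Finset.single_le_sum (f := fun t' => if tv t' i = f i j then W t' else 0)
        (fun t' _ => by
          show 0 ≤ (if tv t' i = f i j then W t' else 0)
          split_ifs
          · exact hW0 t'
          · exact le_rfl) (mem_univ t)
      simp only [hj, if_true] at this
      simpa [hj] using this
    have h2 : 0 < W t := lt_of_le_of_ne (hW0 t) (Ne.symm ht)
    exact ne_of_gt (lt_of_lt_of_le h2 h1)
  refine ⟨fun α => (∑ t, W t * ∏ i, p i (tv t i) (α i)) + if α = β then x else 0,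
    ?_, ?_, ?_, ?_⟩
  · intro α
    apply add_nonneg
    · apply Finset.sum_nonneg
      intro t _
      apply mul_nonneg (hW0 t)
      apply Finset.prod_nonneg
      intro i _
      exact hp0 _ _ _
    · split_ifs
      · exact hx0.le
      · exact le_rfl
  · intro α hα hne
    simp only [hne, if_false, add_zero]
    apply Finset.sum_eq_zero
    intro t _
    by_contra hcon
    have hprod : ∏ i, p i (tv t i) (α i) ≠ 0 := right_ne_zero_of_mul hcon
    have hall : ∀ i : Fin (e + 3), f i (α i) = tv t i := by
      intro i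
      by_contra hfi
      apply hprod
      apply Finset.prod_eq_zero (mem_univ i)
      simp only [hp]
      rw [if_neg hfi]
    have h0 := hall 0
    have h1 := hall 1
    have h2 := hall 2
    have hs := tv_sum t
    have : val α = tv t 0 + tv t 1 + tv t 2 := by
      unfold val
      have e0 : f 0 (α 0) = tv t 0 := h0
      have e1 : f 1 (α 1) = tv t 1 := h1
      have e2 : f 2 (α 2) = tv t 2 := h2
      rw [e0, e1, e2]
    omega
  · intro i j
    rw [Finset.sum_add_distrib]
    have hsecond : ∑ α : Fin (e + 3) → Fin 9 with α i = j, (if α = β then x else 0) =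
        if j = β i then x else 0 := by
      rw [Finset.sum_ite_eq']
      simp only [mem_filter, mem_univ, true_and]
      by_cases hj : β i = j
      · rw [if_pos hj, if_pos hj.symm]
      · rw [if_neg hj, if_neg (fun h => hj h.symm)]
    rw [hsecond, Finset.sum_comm]
    have hfirst : ∀ t, ∑ α : Fin (e + 3) → Fin 9 with α i = j, W t * ∏ i', p i' (tv t i') (α i')
        = (if tv t i = f i j then W t else 0) * (r i j / R i (f i j)) := by
      intro t
      rw [← Finset.mul_sum, prod_marginal (fun i' => p i' (tv t i')) i j]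
      by_cases ht : W t = 0
      · rw [ht]; simp
      · have hone : ∏ i' ∈ univ.erase i, ∑ j', p i' (tv t i') j' = 1 := by
          apply Finset.prod_eq_one
          intro i' _
          exact hpsum _ _ (hRne t ht i')
        rw [hone, mul_one]
        simp only [hp]
        by_cases hf : f i j = tv t i
        · rw [if_pos hf, if_pos hf.symm, hf]
        · rw [if_neg hf, if_neg (fun h => hf h.symm)]
          simp
    rw [Finset.sum_congr rfl (fun t _ => hfirst t), ← Finset.sum_mul, hmarg i j]
    have hfin : R i (f i j) * (r i j / R i (f i j)) = r i j := by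
      by_cases hz : R i (f i j) = 0
      · have hall := (Finset.sum_eq_zero_iff_of_nonneg (fun j' _ => by
          show 0 ≤ (if f i j' = f i j then r i j' else 0)
          split_ifs
          · exact hr0 i j'
          · exact le_rfl)).1 hz j (mem_univ j)
        simp only [if_true] at hall
        rw [hall]; simp
      · field_simp
    rw [hfin]
    simp only [hr]
    ring
  · simp only [if_true]
    have : ∑ t, W t * ∏ i, p i (tv t i) (β i) = 0 := by
      apply Finset.sum_eq_zero
      intro t _
      by_contra hcon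
      have hprod : ∏ i, p i (tv t i) (β i) ≠ 0 := right_ne_zero_of_mul hcon
      have hall : ∀ i : Fin (e + 3), f i (β i) = tv t i := by
        intro i
        by_contra hfi
        apply hprod
        apply Finset.prod_eq_zero (mem_univ i)
        simp only [hp]
        rw [if_neg hfi]
      have hs := tv_sum t
      have : val β = tv t 0 + tv t 1 + tv t 2 := by
        unfold val
        have e0 : f 0 (β 0) = tv t 0 := hall 0
        have e1 : f 1 (β 1) = tv t 1 := hall 1
        have e2 : f 2 (β 2) = tv t 2 := hall 2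
        rw [e0, e1, e2]
      omega
    rw [this, zero_add]

/-- The matrix. -/
def AA (e : ℕ) : Set (Fin (e + 3) → Fin 9) := {α | 32 ≤ val α}

/-- The cover. -/
noncomputable def LL (e : ℕ) : Fin (e + 3) → Fin 9 → ℝ := fun i j => (f i j : ℝ) / 32

theorem sum_marg {e : ℕ} (K : (Fin (e + 3) → Fin 9) → ℝ) (i : Fin (e + 3)) (g : Fin 9 → ℝ) :
    ∑ α, K α * g (α i) = ∑ j, (∑ α with α i = j, K α) * g j := by
  classical
  rw [← Finset.sum_fiberwise univ (fun α : Fin (e + 3) → Fin 9 => α i)]
  apply Finset.sum_congr rfl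
  intro j _
  rw [Finset.sum_mul]
  apply Finset.sum_congr rfl
  intro α hα
  rw [(mem_filter.1 hα).2]

theorem weight_le {e : ℕ} (K : (Fin (e + 3) → Fin 9) → ℝ) (hK : IsPolyplex (AA e) K) :
    weight K ≤ 286 / 32 := by
  have h1 : 32 * weight K ≤ ∑ α, K α * (val α : ℝ) := by
    unfold weight
    rw [Finset.mul_sum]
    apply Finset.sum_le_sum
    intro α _
    by_cases hα : α ∈ AA e
    · have : (32 : ℝ) ≤ (val α : ℝ) := by
        have : 32 ≤ val α := hα
        exact_mod_cast this
      have h0 := hK.nonneg α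
      nlinarith
    · rw [hK.supp α hα]; simp
  have h2 : ∑ α, K α * (val α : ℝ) = ∑ α, K α * (f 0 (α 0) : ℝ) + ∑ α, K α * (f 1 (α 1) : ℝ) +
      ∑ α, K α * (f 2 (α 2) : ℝ) := by
    rw [← Finset.sum_add_distrib, ← Finset.sum_add_distrib]
    apply Finset.sum_congr rfl
    intro α _
    unfold val
    push_cast
    ring
  have h3 : ∀ (i : Fin (e + 3)) (g : Fin 9 → ℕ), ∑ α, K α * (g (α i) : ℝ) ≤
      ((∑ j, g j : ℕ) : ℝ) := by
    intro i g
    rw [sum_marg K i (fun j => (g j : ℝ))]
    push_cast
    apply Finset.sum_le_sum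
    intro j _
    have h := hK.hyper i j
    have hg : (0 : ℝ) ≤ (g j : ℝ) := by positivity
    calc (∑ α with α i = j, K α) * (g j : ℝ) ≤ 1 * (g j : ℝ) :=
          mul_le_mul_of_nonneg_right h hg
      _ = (g j : ℝ) := one_mul _
  have h4 := h3 0 (f 0)
  have h5 := h3 1 (f 1)
  have h6 := h3 2 (f 2)
  have h7 : ((∑ j, f 0 j : ℕ) : ℝ) + ((∑ j, f 1 j : ℕ) : ℝ) + ((∑ j, f 2 j : ℕ) : ℝ) = 286 := by
    exact_mod_cast f_total
  rw [h2] at h1
  linarith

theorem weight_diag {e : ℕ} (K : (Fin (e + 3) → Fin 9) → ℝ)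
    (h : ∀ (i : Fin (e + 3)) (j : Fin 9), ∑ α with α i = j, K α = 1) : weight K = 9 := by
  have := sum_marg K 0 (fun _ => 1)
  unfold weight
  simp only [mul_one] at this
  rw [this]
  rw [Finset.sum_congr rfl (fun j _ => h 0 j)]
  simp

theorem extremal (e : ℕ) : IsExtremal (AA e) := by
  classical
  constructor
  · rintro ⟨K, hK, hw⟩
    have := weight_le K hK
    rw [hw] at this
    norm_num at this
  · intro β hβ
    have hβ' : val β < 32 := not_le.1 hβ
    obtain ⟨K, h0, h1, h2, h3⟩ := exists_diag β hβ'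
    refine ⟨K, ⟨h0, ?_, ?_⟩, ?_⟩
    · intro α hα
      apply h1 α
      · exact not_le.1 (fun h => hα (Set.mem_insert_of_mem _ h))
      · rintro rfl
        exact hα (Set.mem_insert _ _)
    · intro i j
      exact (h2 i j).le
    · rw [weight_diag K h2]
      norm_num

/-- An optimal polyplex. -/
theorem exists_opt (e : ℕ) : ∃ K : (Fin (e + 3) → Fin 9) → ℝ, IsPolyplex (AA e) K ∧
    weight K = 286 / 32 := by
  classical
  obtain ⟨K, h0, h1, h2, h3⟩ := exists_diag (e := e) (fun _ => 0) (by
    show f 0 0 + f 1 0 + f 2 0 < 32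
    decide)
  have hval : val (e := e) (fun _ => 0) = 0 := by
    show f 0 0 + f 1 0 + f 2 0 = 0
    decide
  rw [hval] at h3
  refine ⟨fun α => if α = (fun _ => 0) then 0 else K α, ⟨?_, ?_, ?_⟩, ?_⟩
  · intro α
    show 0 ≤ (if α = (fun _ => 0) then 0 else K α)
    split_ifs
    · exact le_rfl
    · exact h0 α
  · intro α hα
    show (if α = (fun _ => 0) then 0 else K α) = 0
    split_ifs with h
    · rfl
    · exact h1 α (not_le.1 hα) h
  · intro i j
    rw [← h2 i j]
    apply Finset.sum_le_sum
    intro α _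
    show (if α = (fun _ => 0) then 0 else K α) ≤ K α
    split_ifs
    · exact h0 α
    · exact le_rfl
  · have hw := weight_diag K h2
    have : weight K = weight (fun α => if α = (fun _ => (0 : Fin 9)) then 0 else K α) +
        K (fun _ => 0) := by
      unfold weight
      have : ∀ α : Fin (e + 3) → Fin 9, K α = (if α = (fun _ => 0) then 0 else K α) +
          (if α = (fun _ => 0) then K (fun _ => 0) else 0) := by
        intro α
        by_cases h : α = (fun _ => 0)
        · rw [if_pos h, if_pos h, h]; simp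
        · rw [if_neg h, if_neg h]; simp
      rw [Finset.sum_congr rfl (fun α _ => this α), Finset.sum_add_distrib]
      simp
    rw [hw, h3] at this
    unfold xx at this
    push_cast at this
    linarith

theorem cover_weight (e : ℕ) : coverWeight (LL e) = 286 / 32 := by
  unfold coverWeight LL
  rw [sum_three]
  · have h7 : ((∑ j, f 0 j : ℕ) : ℝ) + ((∑ j, f 1 j : ℕ) : ℝ) + ((∑ j, f 2 j : ℕ) : ℝ) = 286 := by
      exact_mod_cast f_total
    rw [← Finset.sum_div, ← Finset.sum_div, ← Finset.sum_div, ← add_div, ← add_div]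
    congr 1
    push_cast at h7
    exact h7
  · intro i
    apply Finset.sum_eq_zero
    intro j _
    have : f ((i.succ.succ.succ : Fin (e + 3)) : ℕ) j = 0 := rfl
    rw [this]
    simp

theorem optimal_cover (e : ℕ) : IsOptimalCover (AA e) (LL e) := by
  classical
  refine ⟨⟨?_, ?_⟩, ?_⟩
  · intro i j
    unfold LL
    positivity
  · intro α hα
    have h : 32 ≤ val α := hα
    have h' : (32 : ℝ) ≤ (val α : ℝ) := by exact_mod_cast h
    have : ∑ i, LL e i (α i) = (val α : ℝ) / 32 := by
      unfold LL
      rw [← Finset.sum_div, ← val_eq α]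
      push_cast
      rfl
    rw [this]
    linarith
  · intro Λ' hΛ'
    rw [cover_weight]
    obtain ⟨K, hK, hw⟩ := exists_opt e
    rw [← hw]
    calc weight K = ∑ α, K α * 1 := by simp [weight]
      _ ≤ ∑ α, K α * ∑ i, Λ' i (α i) := by
          apply Finset.sum_le_sum
          intro α _
          by_cases hα : α ∈ AA e
          · exact mul_le_mul_of_nonneg_left (hΛ'.cover α hα) (hK.nonneg α)
          · rw [hK.supp α hα]; simp
      _ = ∑ i, ∑ α, K α * Λ' i (α i) := by
          rw [Finset.sum_comm]
          apply Finset.sum_congr rfl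
          intro α _
          rw [Finset.mul_sum]
      _ = ∑ i, ∑ j, (∑ α with α i = j, K α) * Λ' i j := by
          apply Finset.sum_congr rfl
          intro i _
          exact sum_marg K i (Λ' i)
      _ ≤ ∑ i, ∑ j, Λ' i j := by
          apply Finset.sum_le_sum
          intro i _
          apply Finset.sum_le_sum
          intro j _
          calc (∑ α with α i = j, K α) * Λ' i j ≤ 1 * Λ' i j :=
                mul_le_mul_of_nonneg_right (hK.hyper i j) (hΛ'.nonneg i j)
            _ = Λ' i j := one_mul _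
      _ = coverWeight Λ' := rfl

theorem deficiency (e : ℕ) : IsDeficiency (AA e) (1 / 16) := by
  obtain ⟨K, hK, hw⟩ := exists_opt e
  refine ⟨K, ⟨hK, ?_⟩, ?_⟩
  · intro K' hK'
    rw [hw]
    exact weight_le K' hK'
  · rw [hw]
    norm_num

theorem not_multiple (e : ℕ) : ¬ ∃ z : ℤ, LL e 0 1 = z * (1 / 16 : ℝ) := by
  rintro ⟨z, hz⟩
  have h1 : LL e 0 1 = 3 / 32 := by
    unfold LL
    have : f ((0 : Fin (e + 3)) : ℕ) 1 = 3 := rfl
    rw [this]
    norm_num
  rw [h1] at hz
  have h2 : (2 : ℝ) * z = 3 := by linarith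
  have h3 : (2 : ℤ) * z = 3 := by exact_mod_cast h2
  omega

theorem main (d : ℕ) (hd : 3 ≤ d) : ∃ (A : Set (Fin d → Fin 9)) (δ : ℝ) (Λ : Fin d → Fin 9 → ℝ),
    IsExtremal A ∧ IsDeficiency A δ ∧ IsOptimalCover A Λ ∧
      ∃ i j, ¬ ∃ z : ℤ, Λ i j = z * δ := by
  obtain ⟨e, rfl⟩ := Nat.exists_eq_add_of_le' hd
  exact ⟨AA e, 1 / 16, LL e, extremal e, deficiency e, optimal_cover e, 0, 1, not_multiple e⟩

end Pool.Agent.Lib.MP_fa4fe0_co
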