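import Mathlib

namespace Pool.Agent.Lib.MP_fa4fe0_co

open Finset

/-- Values (32 times the cover) of the hyperplanes. -/
def f : ℕ → Fin 9 → ℕ
  | 0 => ![0, 3, 3, 6, 6, 8, 8, 12, 16]
  | 1 => ![0, 5, 5, 8, 8, 16, 20, 20, 26]
  | 2 => ![0, 0, 4, 6, 16, 21, 21, 24, 24]
  | (_ + 3) => fun _ => 0

/-- The 15 tight types. -/
def tv : Fin 15 → ℕ → ℕ := fun t i =>
  match i with
  | 0 => (![0, 0, 0, 3, 3, 6, 6, 6, 8, 8, 8, 12, 12, 16, 16] : Fin 15 → ℕ) t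
  | 1 => (![8, 16, 26, 5, 8, 5, 20, 26, 0, 8, 20, 16, 20, 0, 16] : Fin 15 → ℕ) t
  | 2 => (![24, 16, 6, 24, 21, 21, 6, 0, 24, 16, 4, 4, 0, 16, 0] : Fin 15 → ℕ) t
  | (_ + 3) => 0

/-- 96 times the base measure on tight types. -/
def k0 : Fin 15 → ℤ := ![36, 6, 48, 96, 96, 96, 48, 48, 60, 60, 72, 24, 72, 30, 66]

/-- Correction tables by direction and value. -/
def cv : ℕ → ℕ → Fin 15 → ℤ
  | 0, 3 => ![-18, -3, -8, 16, 16, -16, 8, 8, 2, 2, -4, 4, -4, 1, -1]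
  | 0, 6 => ![-4, -6, -16, 0, 0, 0, 16, 16, 4, 4, -8, 8, -8, 2, -2]
  | 0, 8 => ![-16, -8, 0, 0, 0, 0, 0, 0, 16, 16, 0, 0, 0, -8, 8]
  | 0, 12 => ![-8, -12, 0, 0, 0, 0, 0, 0, 8, 8, -16, 16, 16, 4, -4]
  | 0, 16 => ![0, -16, 0, 0, 0, 0, 0, 0, 0, 0, 0, 0, 0, 16, 16]
  | 1, 5 => ![2, -5, 8, 16, -16, 16, -8, -8, -18, 14, 4, -4, 4, -9, 9]
  | 1, 8 => ![16, -8, 0, 0, 0, 0, 0, 0, -16, 16, 0, 0, 0, -8, 8]
  | 1, 16 => ![0, 16, 0, 0, 0, 0, 0, 0, 0, 0, 0, 0, 0, -16, 16]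
  | 1, 20 => ![8, 12, 0, 0, 0, 0, 0, 0, -8, -8, 16, -16, 16, -4, 4]
  | 1, 26 => ![4, 6, 16, 0, 0, 0, -16, 16, -4, -4, 8, -8, 8, -2, 2]
  | 2, 4 => ![8, -4, 0, 0, 0, 0, 0, 0, -8, -8, 16, 16, -16, 12, -12]
  | 2, 6 => ![-4, -6, 16, 0, 0, 0, 16, -16, 4, 4, -8, 8, -8, 2, -2]
  | 2, 16 => ![0, 16, 0, 0, 0, 0, 0, 0, 0, 0, 0, 0, 0, 16, -16]
  | 2, 21 => ![2, 11, 8, -16, 16, 16, -8, -8, 14, -18, 4, -4, 4, 7, -7]
  | 2, 24 => ![16, 8, 0, 0, 0, 0, 0, 0, 16, -16, 0, 0, 0, 8, -8]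
  | _, _ => fun _ => 0

/-- Correction tables by direction and hyperplane. -/
def c (i : ℕ) (j : Fin 9) (t : Fin 15) : ℤ := cv i (f i j) t

theorem f_add_three (i : ℕ) (j : Fin 9) : f (i + 3) j = 0 := rfl

theorem c_add_three (i : ℕ) (j : Fin 9) (t : Fin 15) : c (i + 3) j t = 0 := rfl

theorem tv_add_three (t : Fin 15) (i : ℕ) : tv t (i + 3) = 0 := rfl

theorem tv_sum : ∀ t, tv t 0 + tv t 1 + tv t 2 = 32 := by decide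

theorem f_le : ∀ j0 j1 j2 : Fin 9, f 0 j0 + f 1 j1 + f 2 j2 < 32 →
    f 0 j0 + f 1 j1 + f 2 j2 ≤ 30 := by decide

theorem f_total : (∑ j, f 0 j) + (∑ j, f 1 j) + (∑ j, f 2 j) = 286 := by decide

theorem k0_pos : ∀ t, 0 ≤ k0 t := by decide

theorem c_marg : ∀ i < 3, ∀ (j : Fin 9), ∀ i' < 3, ∀ (j' : Fin 9),
    ∑ t, (if tv t i' = f i' j' then c i j t else 0) =
      (if i = i' then 32 * ((if f i' j' = f i j then 1 else 0) - (if f i' j' = 0 then 1 else 0))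
        else 0) + (if f i' j' = 0 then (f i j : ℤ) else 0) := by
  decide +kernel

theorem c_total : ∀ i < 3, ∀ (j : Fin 9), ∑ t, c i j t = f i j := by
  decide +kernel

theorem k0_marg : ∀ i' < 3, ∀ (j' : Fin 9),
    ∑ t, (if tv t i' = f i' j' then k0 t else 0) =
      96 * (∑ j, if f i' j = f i' j' then 1 else 0) - (if f i' j' = 0 then 6 else 0) := by
  decide +kernel

theorem k0_total : ∑ t, k0 t = 96 * 9 - 6 := by decide +kernel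

theorem nonneg_table : ∀ (j0 j1 j2 : Fin 9) (t : Fin 15), f 0 j0 + f 1 j1 + f 2 j2 < 32 →
    6 * (c 0 j0 t + c 1 j1 t + c 2 j2 t) ≤
      k0 t * (32 - ((f 0 j0 : ℤ) + (f 1 j1 : ℤ) + (f 2 j2 : ℤ))) := by
  decide +kernel

theorem tv_mem_aux : ∀ (t : Fin 15), ∀ k < 3, ∃ j, f k j = tv t k := by decide +kernel

theorem tv_mem (t : Fin 15) (k : ℕ) : ∃ j, f k j = tv t k := by
  rcases k with _ | _ | _ | k
  · exact tv_mem_aux t 0 (by norm_num)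
  · exact tv_mem_aux t 1 (by norm_num)
  · exact tv_mem_aux t 2 (by norm_num)
  · exact ⟨0, rfl⟩

end Pool.Agent.Lib.MP_fa4fe0_co
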