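import Pool.Agent.Lib.MP_fa4fe0_co.Defs
import Pool.Agent.Lib.MP_fa4fe0_co.Tables

namespace Pool.Agent.Lib.MP_fa4fe0_co

open Finset

/-- Marginals of a product array. -/
theorem prod_marginal {d n : ℕ} (p : Fin d → Fin n → ℝ) (i : Fin d) (j : Fin n) :
    ∑ α : Fin d → Fin n with α i = j, ∏ i', p i' (α i') =
      p i j * ∏ i' ∈ univ.erase i, ∑ j', p i' j' := by
  classical
  have h1 : (univ.filter (fun α : Fin d → Fin n => α i = j)) =
      Fintype.piFinset (fun i' => if i' = i then ({j} : Finset (Fin n)) else univ) := by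
    ext α
    simp only [mem_filter, mem_univ, true_and, Fintype.mem_piFinset]
    constructor
    · intro h i'
      by_cases hi : i' = i
      · subst hi; simp [h]
      · simp [hi]
    · intro h
      have := h i
      simpa using this
  rw [h1, ← Finset.prod_univ_sum, ← Finset.mul_prod_erase univ _ (mem_univ i)]
  simp only [if_true, sum_singleton]
  congr 1
  apply Finset.prod_congr rfl
  intro i' hi'
  rw [if_neg (Finset.ne_of_mem_erase hi')]

theorem sum_three {M : Type*} [AddCommMonoid M] (e : ℕ) (F : Fin (e + 3) → M)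
    (h : ∀ i : Fin e, F i.succ.succ.succ = 0) : ∑ i, F i = F 0 + F 1 + F 2 := by
  rw [Fin.sum_univ_succ, Fin.sum_univ_succ, Fin.sum_univ_succ]
  rw [Finset.sum_eq_zero (fun i _ => h i)]
  rw [add_zero, ← add_assoc]
  rfl

/-- The value sum. -/
def val {e : ℕ} (α : Fin (e + 3) → Fin 9) : ℕ := f 0 (α 0) + f 1 (α 1) + f 2 (α 2)

/-- The total correction. -/
def corr (j0 j1 j2 : Fin 9) (t : Fin 15) : ℤ := c 0 j0 t + c 1 j1 t + c 2 j2 t

theorem val_eq {e : ℕ} (α : Fin (e + 3) → Fin 9) : ∑ i : Fin (e + 3), f i (α i) = val α := by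
  rw [sum_three]
  · rfl
  · intro i; rfl

theorem k0_marg' (k : ℕ) (j : Fin 9) :
    ∑ t, (if tv t k = f k j then k0 t else 0) =
      96 * (∑ j', if f k j' = f k j then 1 else 0) - (if f k j = 0 then 6 else 0) := by
  rcases k with _ | _ | _ | k
  · exact k0_marg 0 (by norm_num) j
  · exact k0_marg 1 (by norm_num) j
  · exact k0_marg 2 (by norm_num) j
  · simp only [tv_add_three, f_add_three, if_true]
    rw [k0_total]
    simp

theorem corr_split (j0 j1 j2 : Fin 9) (P : Fin 15 → Prop) [DecidablePred P] :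
    ∑ t, (if P t then corr j0 j1 j2 t else 0) = ∑ t, (if P t then c 0 j0 t else 0) +
      ∑ t, (if P t then c 1 j1 t else 0) + ∑ t, (if P t then c 2 j2 t else 0) := by
  rw [← Finset.sum_add_distrib, ← Finset.sum_add_distrib]
  apply Finset.sum_congr rfl
  intro t _
  by_cases hP : P t
  · simp [hP, corr]
  · simp [hP]

theorem c_marg' (j0 j1 j2 : Fin 9) (k : ℕ) (b : Fin 9) (h0 : k = 0 → b = j0)
    (h1 : k = 1 → b = j1) (h2 : k = 2 → b = j2) (j : Fin 9) :
    ∑ t, (if tv t k = f k j then corr j0 j1 j2 t else 0) =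
      32 * ((if f k j = f k b then 1 else 0) - (if f k j = 0 then 1 else 0)) +
        (if f k j = 0 then ((f 0 j0 + f 1 j1 + f 2 j2 : ℕ) : ℤ) else 0) := by
  rw [corr_split]
  rcases k with _ | _ | _ | k
  · obtain rfl := h0 rfl
    rw [c_marg 0 (by norm_num) b 0 (by norm_num) j, c_marg 1 (by norm_num) j1 0 (by norm_num) j,
      c_marg 2 (by norm_num) j2 0 (by norm_num) j]
    by_cases hz : f 0 j = 0
    · simp [hz]; ring
    · simp [hz]
  · obtain rfl := h1 rfl
    rw [zero_add, c_marg 0 (by norm_num) j0 1 (by norm_num) j,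
      c_marg 1 (by norm_num) b 1 (by norm_num) j,
      c_marg 2 (by norm_num) j2 1 (by norm_num) j]
    by_cases hz : f 1 j = 0
    · simp [hz]; ring
    · simp [hz]
  · obtain rfl := h2 rfl
    rw [zero_add, one_add_one_eq_two, c_marg 0 (by norm_num) j0 2 (by norm_num) j,
      c_marg 1 (by norm_num) j1 2 (by norm_num) j,
      c_marg 2 (by norm_num) b 2 (by norm_num) j]
    by_cases hz : f 2 j = 0
    · simp [hz]; ring
    · simp [hz]
  · simp only [tv_add_three, f_add_three, if_true]
    rw [c_total 0 (by norm_num), c_total 1 (by norm_num), c_total 2 (by norm_num)]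
    simp

end Pool.Agent.Lib.MP_fa4fe0_co
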